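import Mathlib

namespace Pool.Agent.Results.MP_cd85a3_co.GridNumber

/-- The grid with side lengths `m i`: its vertices are the points of the product of the sets
`{0, ..., m i - 1}`, two of them being adjacent when they differ by one in exactly one
coordinate. -/
def grid {n : ℕ} (m : Fin n → ℕ) : SimpleGraph ((i : Fin n) → Fin (m i)) where
  Adj x y := ∃ i, ((x i : ℕ) + 1 = (y i : ℕ) ∨ (y i : ℕ) + 1 = (x i : ℕ)) ∧
    ∀ j, j ≠ i → x j = y j
  symm := ⟨by
    rintro x y ⟨i, hi, hne⟩
    exact ⟨i, hi.symm, fun j hj => (hne j hj).symm⟩⟩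
  loopless := ⟨by
    rintro x ⟨i, hi, _⟩
    omega⟩

/-- A legal joint move of the cops: a cop who has been removed (`none`) stays removed, and every
other cop stays put or moves to an adjacent vertex. -/
def CopMove {V : Type} (G : SimpleGraph V) {k : ℕ} (c c' : Fin k → Option V) : Prop :=
  ∀ j, (c j = none ∧ c' j = none) ∨
    ∃ x y, c j = some x ∧ c' j = some y ∧ (x = y ∨ G.Adj x y)

/-- The number of cops who stand at the vertex `v`. -/
noncomputable def copsAt {V : Type} {k : ℕ} (c : Fin k → Option V) (v : V) : ℕ :=
  Nat.card {j : Fin k // c j = some v}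

open Classical in
/-- The cops who stand at the vertex `v` are removed. -/
noncomputable def attack {V : Type} {k : ℕ} (c : Fin k → Option V) (v : V) : Fin k → Option V :=
  fun j => if c j = some v then none else c j

/-- `CopsForce G c r`: with the cops at `c`, the robber at `r` and the cops to move, the cops can
force a win. Either they have a move after which a cop occupies the vertex of the robber, or they
have a move after which the robber is not yet caught and every reply of the robber (to stay put
or to move to an adjacent vertex `v`) loses: if two or more cops stand at `v` he is caught, and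
otherwise the cop standing at `v`, if there is one, is removed and the cops, to move, can force a
win. -/
inductive CopsForce {V : Type} (G : SimpleGraph V) {k : ℕ} : (Fin k → Option V) → V → Prop
  | capture (c c' : Fin k → Option V) (r : V) (j : Fin k) (hm : CopMove G c c')
      (hj : c' j = some r) : CopsForce G c r
  | step (c c' : Fin k → Option V) (r : V) (hm : CopMove G c c') (hr : ∀ j, c' j ≠ some r)
      (h : ∀ v, (v = r ∨ G.Adj r v) → copsAt c' v ≤ 1 → CopsForce G (attack c' v) v) :
      CopsForce G c r

/-- `k` cops win the game of cops and attacking robber on `G`: they can choose their initial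
vertices such that, whichever vertex the robber then takes, he is on the vertex of a cop or the
cops, who move first, can force a win. -/
def CopsWin {V : Type} (G : SimpleGraph V) (k : ℕ) : Prop :=
  ∃ c : Fin k → V, ∀ r : V, (∃ j, c j = r) ∨ CopsForce G (fun j => some (c j)) r

section basics

variable {n : ℕ} {m : Fin n → ℕ}

/-- difference in the coordinate i -/
def df (x y : (i : Fin n) → Fin (m i)) (i : Fin n) : ℤ := ((x i : ℕ) : ℤ) - ((y i : ℕ) : ℤ)

/-- the distance -/
def dst (x y : (i : Fin n) → Fin (m i)) : ℕ := ∑ i, (df x y i).natAbs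

theorem adj_cases {r v : (i : Fin n) → Fin (m i)} (h : (grid m).Adj r v) :
    ∃ i, (∀ a, a ≠ i → v a = r a) ∧ ((v i : ℕ) = r i + 1 ∨ (r i : ℕ) = v i + 1) := by
  obtain ⟨i, hi, hne⟩ := h
  refine ⟨i, fun a ha => (hne a ha).symm, ?_⟩
  rcases hi with hi | hi
  · left; omega
  · right; omega

theorem dst_move {r v g : (i : Fin n) → Fin (m i)} {i : Fin n} (hne : ∀ a, a ≠ i → v a = r a) :
    dst v g + (df r g i).natAbs = dst r g + (df v g i).natAbs := by
  unfold dst
  rw [← Finset.add_sum_erase Finset.univ (fun a => (df v g a).natAbs) (Finset.mem_univ i),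
    ← Finset.add_sum_erase Finset.univ (fun a => (df r g a).natAbs) (Finset.mem_univ i)]
  have : ∑ a ∈ Finset.univ.erase i, (df v g a).natAbs =
      ∑ a ∈ Finset.univ.erase i, (df r g a).natAbs := by
    apply Finset.sum_congr rfl
    intro a ha
    rw [Finset.mem_erase] at ha
    unfold df
    rw [hne a ha.1]
  rw [this]
  ring

theorem dich {r v : (i : Fin n) → Fin (m i)} (g : (i : Fin n) → Fin (m i)) {i : Fin n}
    (hi : (v i : ℕ) = r i + 1 ∨ (r i : ℕ) = v i + 1) :
    (df v g i).natAbs = (df r g i).natAbs + 1 ∨ (df v g i).natAbs + 1 = (df r g i).natAbs := by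
  unfold df
  omega

theorem dst_self (x : (i : Fin n) → Fin (m i)) : dst x x = 0 := by
  unfold dst df
  simp

theorem dst_comm (x y : (i : Fin n) → Fin (m i)) : dst x y = dst y x := by
  unfold dst df
  apply Finset.sum_congr rfl
  intro i _
  omega

theorem dst_adj {r v : (i : Fin n) → Fin (m i)} (h : (grid m).Adj r v) : dst r v = 1 := by
  obtain ⟨i, hne, hi⟩ := adj_cases h
  have h1 := dst_move (g := v) hne
  rw [dst_self] at h1
  unfold df at h1
  omega

theorem adj_of_dst {x y : (i : Fin n) → Fin (m i)} (h : dst x y = 1) : (grid m).Adj x y := by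
  have h0 : ∃ i, (df x y i).natAbs ≠ 0 := by
    by_contra hcon
    push Not at hcon
    unfold dst at h
    rw [Finset.sum_eq_zero (fun i _ => hcon i)] at h
    omega
  obtain ⟨i, hi⟩ := h0
  unfold dst at h
  rw [← Finset.add_sum_erase Finset.univ (fun a => (df x y a).natAbs) (Finset.mem_univ i)] at h
  have h1 : ∑ a ∈ Finset.univ.erase i, (df x y a).natAbs = 0 := by
    have : (fun a => (df x y a).natAbs) i = (df x y i).natAbs := rfl
    omega
  rw [Finset.sum_eq_zero_iff] at h1
  refine ⟨i, ?_, fun j hj => ?_⟩
  · have h2 : (df x y i).natAbs = 1 := by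
      have : (fun a => (df x y a).natAbs) i = (df x y i).natAbs := rfl
      rw [Finset.sum_eq_zero_iff.mpr h1] at h
      omega
    unfold df at h2
    omega
  · have h2 := h1 j (Finset.mem_erase.mpr ⟨hj, Finset.mem_univ j⟩)
    unfold df at h2
    apply Fin.ext
    omega

theorem eq_of_dst {x y : (i : Fin n) → Fin (m i)} (h : dst x y = 0) : x = y := by
  unfold dst at h
  rw [Finset.sum_eq_zero_iff] at h
  funext i
  have := h i (Finset.mem_univ i)
  unfold df at this
  apply Fin.ext
  omega

theorem dst_congr {x y x' y' : (i : Fin n) → Fin (m i)} (h : ∀ a, df x y a = df x' y' a) :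
    dst x y = dst x' y' := by
  unfold dst
  apply Finset.sum_congr rfl
  intro a _
  rw [h a]

theorem mirror {r v g : (i : Fin n) → Fin (m i)} {i : Fin n} (hne : ∀ a, a ≠ i → v a = r a)
    (hi : (v i : ℕ) = r i + 1 ∨ (r i : ℕ) = v i + 1)
    (haw : (df v g i).natAbs = (df r g i).natAbs + 1) :
    ∃ g' : (i : Fin n) → Fin (m i), (grid m).Adj g g' ∧ ∀ a, df v g' a = df r g a := by
  have hv := (v i).2
  have hg := (g i).2
  rcases hi with hi | hi
  · have hb : (g i : ℕ) + 1 < m i := by
      unfold df at haw
      omega
    refine ⟨Function.update g i ⟨(g i : ℕ) + 1, hb⟩, ⟨i, Or.inl ?_, fun j hj => ?_⟩,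
      fun a => ?_⟩
    · simp
    · rw [Function.update_of_ne hj]
    · by_cases ha : a = i
      · subst ha
        unfold df
        simp only [Function.update_self]
        push_cast
        omega
      · unfold df
        rw [Function.update_of_ne ha, hne a ha]
  · have hb : (g i : ℕ) - 1 < m i := by omega
    have hpos : 1 ≤ (g i : ℕ) := by
      unfold df at haw
      omega
    refine ⟨Function.update g i ⟨(g i : ℕ) - 1, hb⟩, ⟨i, Or.inr ?_, fun j hj => ?_⟩,
      fun a => ?_⟩
    · simp only [Function.update_self]
      omega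
    · rw [Function.update_of_ne hj]
    · by_cases ha : a = i
      · subst ha
        unfold df
        simp only [Function.update_self]
        omega
      · unfold df
        rw [Function.update_of_ne ha, hne a ha]

theorem reduce {v g : (i : Fin n) → Fin (m i)} {l : Fin n} (h : df v g l ≠ 0) :
    ∃ g' : (i : Fin n) → Fin (m i), (grid m).Adj g g' ∧ (∀ a, a ≠ l → g' a = g a) ∧
      (df v g' l).natAbs + 1 = (df v g l).natAbs := by
  have hv := (v l).2
  have hg := (g l).2
  rcases lt_or_ge (g l : ℕ) (v l : ℕ) with hlt | hge
  · have hb : (g l : ℕ) + 1 < m l := by omega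
    refine ⟨Function.update g l ⟨(g l : ℕ) + 1, hb⟩, ⟨l, Or.inl ?_, fun j hj => ?_⟩,
      fun a ha => ?_, ?_⟩
    · simp
    · rw [Function.update_of_ne hj]
    · rw [Function.update_of_ne ha]
    · unfold df
      simp only [Function.update_self]
      push_cast
      omega
  · have hne : (v l : ℕ) ≠ g l := by
      intro hc
      apply h
      unfold df
      omega
    have hb : (g l : ℕ) - 1 < m l := by omega
    refine ⟨Function.update g l ⟨(g l : ℕ) - 1, hb⟩, ⟨l, Or.inr ?_, fun j hj => ?_⟩,
      fun a ha => ?_, ?_⟩
    · simp only [Function.update_self]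
      omega
    · rw [Function.update_of_ne hj]
    · rw [Function.update_of_ne ha]
    · unfold df
      simp only [Function.update_self]
      omega

theorem dst_reduce {v g g' : (i : Fin n) → Fin (m i)} {l : Fin n}
    (h1 : ∀ a, a ≠ l → g' a = g a) (h2 : (df v g' l).natAbs + 1 = (df v g l).natAbs) :
    dst v g' + 1 = dst v g := by
  have h := dst_move (r := g) (v := g') (g := v) (i := l) h1
  rw [dst_comm g' v, dst_comm g v] at h
  unfold df at h h2
  omega

theorem exists_df_ne {x y : (i : Fin n) → Fin (m i)} (h : dst x y ≠ 0) : ∃ l, df x y l ≠ 0 := by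
  by_contra hcon
  push Not at hcon
  apply h
  unfold dst
  apply Finset.sum_eq_zero
  intro i _
  rw [hcon i]
  rfl

end basics

section game

variable {V : Type} {G : SimpleGraph V} {k : ℕ}

theorem force_capture {c : Fin k → Option V} {r : V} (j : Fin k) (x : V) (hj : c j = some x)
    (hx : x = r ∨ G.Adj x r) : CopsForce G c r := by
  classical
  refine CopsForce.capture c (Function.update c j (some r)) r j ?_ (by simp)
  intro a
  by_cases ha : a = j
  · subst ha
    right
    exact ⟨x, r, hj, by simp, hx⟩
  · rw [Function.update_of_ne ha]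
    rcases hca : c a with _ | y
    · left
      exact ⟨rfl, rfl⟩
    · right
      exact ⟨y, y, rfl, rfl, Or.inl rfl⟩

/-- all cops in the game: guards g and hunter h -/
def cfg {K : ℕ} (g : Fin K → V) (h : V) : Fin (K + 1) → Option V :=
  Fin.snoc (α := fun _ => Option V) (fun j => some (g j)) (some h)

theorem cfg_cast {K : ℕ} (g : Fin K → V) (h : V) (j : Fin K) :
    cfg g h j.castSucc = some (g j) := by
  unfold cfg
  simp

theorem cfg_last {K : ℕ} (g : Fin K → V) (h : V) : cfg g h (Fin.last K) = some h := by
  unfold cfg
  simp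

theorem attack_eq {K : ℕ} {g : Fin K → V} {h v : V} (hg : ∀ j, g j ≠ v) (hh : h ≠ v) :
    attack (cfg g h) v = cfg g h := by
  funext j
  unfold attack
  rw [if_neg]
  intro hc
  induction j using Fin.lastCases with
  | last =>
    rw [cfg_last] at hc
    exact hh (Option.some_injective _ hc)
  | cast j =>
    rw [cfg_cast] at hc
    exact hg j (Option.some_injective _ hc)

theorem attack_cast {K : ℕ} {g : Fin K → V} {h v : V} (j : Fin K) (hg : g j ≠ v) :
    attack (cfg g h) v j.castSucc = some (g j) := by
  unfold attack
  rw [cfg_cast, if_neg]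
  intro hc
  exact hg (Option.some_injective _ hc)

theorem copMove_cfg {K : ℕ} {g g' : Fin K → V} {h h' : V}
    (hg : ∀ j, g j = g' j ∨ G.Adj (g j) (g' j)) (hh : h = h' ∨ G.Adj h h') :
    CopMove G (cfg g h) (cfg g' h') := by
  intro j
  right
  induction j using Fin.lastCases with
  | last => exact ⟨h, h', cfg_last g h, cfg_last g' h', hh⟩
  | cast j => exact ⟨g j, g' j, cfg_cast g h j, cfg_cast g' h' j, hg j⟩

/-- the cops win with the robber to move -/
def RW {V : Type} (G : SimpleGraph V) {K : ℕ} (g : Fin K → V) (h : V) (r : V) : Prop :=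
  ∀ v, (v = r ∨ G.Adj r v) → copsAt (cfg g h) v ≤ 1 → CopsForce G (attack (cfg g h) v) v

theorem force_of_RW {K : ℕ} {g g' : Fin K → V} {h h' v : V}
    (hg : ∀ j, g j = g' j ∨ G.Adj (g j) (g' j)) (hh : h = h' ∨ G.Adj h h')
    (hgv : ∀ j, g' j ≠ v) (hhv : h' ≠ v) (hrw : RW G g' h' v) : CopsForce G (cfg g h) v := by
  refine CopsForce.step (cfg g h) (cfg g' h') v (copMove_cfg hg hh) ?_ hrw
  intro j hc
  induction j using Fin.lastCases with
  | last =>
    rw [cfg_last] at hc
    exact hhv (Option.some_injective _ hc)
  | cast j =>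
    rw [cfg_cast] at hc
    exact hgv j (Option.some_injective _ hc)

end game

theorem lex_induction {α : Type} (a b c d : α → ℕ) (P : α → Prop)
    (h : ∀ x, (∀ y, (a y < a x ∨ (a y = a x ∧ (b y < b x ∨ (b y = b x ∧
      (c y < c x ∨ (c y = c x ∧ d y < d x)))))) → P y) → P x) : ∀ x, P x := by
  have key : ∀ A B C D x, a x = A → b x = B → c x = C → d x = D → P x := by
    intro A
    induction A using Nat.strong_induction_on with
    | _ A ihA =>
    intro B
    induction B using Nat.strong_induction_on with
    | _ B ihB =>
    intro C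
    induction C using Nat.strong_induction_on with
    | _ C ihC =>
    intro D
    induction D using Nat.strong_induction_on with
    | _ D ihD =>
    intro x hA hB hC hD
    apply h
    intro y hy
    rcases hy with hy | ⟨h1, hy | ⟨h2, hy | ⟨h3, hy⟩⟩⟩
    · exact ihA (a y) (hA ▸ hy) _ _ _ y rfl rfl rfl rfl
    · exact ihB (b y) (hB ▸ hy) _ _ y (h1.trans hA) rfl rfl rfl
    · exact ihC (c y) (hC ▸ hy) _ y (h1.trans hA) (h2.trans hB) rfl rfl
    · exact ihD (d y) (hD ▸ hy) y (h1.trans hA) (h2.trans hB) (h3.trans hC) rfl
  intro x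
  exact key _ _ _ _ x rfl rfl rfl rfl

section strategy

variable {n : ℕ} {m : Fin n → ℕ} {K : ℕ}

/-- covered coordinates -/
def cov (g : Fin K → ((i : Fin n) → Fin (m i))) (r : (i : Fin n) → Fin (m i)) :
    Finset (Fin n) :=
  Finset.univ.filter (fun i => ∃ j, df r (g j) i ≠ 0)

/-- total distance -/
def tot (g : Fin K → ((i : Fin n) → Fin (m i))) (r : (i : Fin n) → Fin (m i)) : ℕ :=
  ∑ j, dst r (g j)

/-- the room left in one coordinate -/
def wt (g : Fin K → ((i : Fin n) → Fin (m i))) (r : (i : Fin n) → Fin (m i)) (i : Fin n) : ℕ :=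
  if (∃ j, 0 < df r (g j) i) then m i - 1 - (r i : ℕ)
  else if (∃ j, df r (g j) i < 0) then (r i : ℕ) else 0

/-- the total room left -/
def wsum (g : Fin K → ((i : Fin n) → Fin (m i))) (r : (i : Fin n) → Fin (m i)) : ℕ :=
  ∑ i, wt g r i

theorem between {x y w : (i : Fin n) → Fin (m i)} (h : dst x w = dst x y + dst y w) (i : Fin n) :
    (df x w i).natAbs = (df x y i).natAbs + (df y w i).natAbs := by
  unfold dst at h
  rw [← Finset.sum_add_distrib] at h
  have hle : ∀ a ∈ (Finset.univ : Finset (Fin n)),
      (df x w a).natAbs ≤ (df x y a).natAbs + (df y w a).natAbs := by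
    intro a _
    unfold df
    omega
  exact (Finset.sum_eq_sum_iff_of_le hle).mp h i (Finset.mem_univ i)

theorem df_sub (x y w : (i : Fin n) → Fin (m i)) (a : Fin n) :
    df x y a = df w y a - df w x a := by
  unfold df
  ring

theorem pigeon (hn : n ≤ 2 * K) {g : Fin K → ((i : Fin n) → Fin (m i))}
    {r : (i : Fin n) → Fin (m i)} (hg : ∀ j, 2 ≤ dst r (g j)) {i : Fin n}
    (hi : ∀ j, df r (g j) i = 0) :
    ∃ l j, df r (g j) l ≠ 0 ∧ 2 ≤ ∑ j, (df r (g j) l).natAbs := by
  by_contra hcon
  push Not at hcon
  have h1 : ∀ l, ∑ j, (df r (g j) l).natAbs ≤ if l = i then 0 else 1 := by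
    intro l
    by_cases hl : l = i
    · rw [if_pos hl, hl]
      apply le_of_eq
      apply Finset.sum_eq_zero
      intro j _
      rw [hi j]
      rfl
    · rw [if_neg hl]
      by_cases hex : ∃ j, df r (g j) l ≠ 0
      · obtain ⟨j, hj⟩ := hex
        have := hcon l j hj
        omega
      · push Not at hex
        rw [Finset.sum_eq_zero (fun j _ => by rw [hex j]; rfl)]
        omega
  have h2 : ∑ l : Fin n, (if l = i then 0 else 1) = n - 1 := by
    rw [← Finset.add_sum_erase Finset.univ _ (Finset.mem_univ i)]
    rw [if_pos rfl]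
    rw [Finset.sum_congr rfl (g := fun _ => 1) (fun a ha => if_neg (Finset.ne_of_mem_erase ha))]
    simp
  have h3 : 2 * K ≤ ∑ j, dst r (g j) := by
    have : ∑ _j : Fin K, 2 ≤ ∑ j, dst r (g j) := Finset.sum_le_sum (fun j _ => hg j)
    simp at this
    omega
  have h4 : ∑ j, dst r (g j) = ∑ l, ∑ j, (df r (g j) l).natAbs := by
    unfold dst
    rw [Finset.sum_comm]
  have h5 : ∑ l, ∑ j, (df r (g j) l).natAbs ≤ ∑ l : Fin n, (if l = i then 0 else 1) :=
    Finset.sum_le_sum (fun l _ => h1 l)
  have := i.2
  omega

theorem cov_lt {g g' : Fin K → ((i : Fin n) → Fin (m i))} {r v : (i : Fin n) → Fin (m i)}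
    {i l : Fin n} {j : Fin K} (h1 : ∀ j', j' ≠ j → ∀ a, df v (g' j') a = df r (g j') a)
    (h2 : ∀ a, a ≠ l → a ≠ i → df v (g' j) a = df r (g j) a) (h3 : df v (g' j) i ≠ 0)
    (h4 : (df v (g' j) l).natAbs + 1 = (df r (g j) l).natAbs)
    (h5 : 2 ≤ ∑ j, (df r (g j) l).natAbs) (h6 : ∀ j, df r (g j) i = 0) :
    n - (cov g' v).card < n - (cov g r).card := by
  have hss : cov g r ⊂ cov g' v := by
    rw [Finset.ssubset_iff_of_subset]
    · refine ⟨i, ?_, ?_⟩
      · unfold cov
        rw [Finset.mem_filter]
        exact ⟨Finset.mem_univ i, j, h3⟩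
      · unfold cov
        rw [Finset.mem_filter]
        rintro ⟨_, j', hj'⟩
        exact hj' (h6 j')
    · intro a ha
      unfold cov at ha ⊢
      rw [Finset.mem_filter] at ha ⊢
      obtain ⟨_, j0, hj0⟩ := ha
      refine ⟨Finset.mem_univ a, ?_⟩
      have hai : a ≠ i := by
        rintro rfl
        exact hj0 (h6 j0)
      by_cases hal : a = l
      · subst hal
        by_cases h7 : df v (g' j) a = 0
        · rw [h7] at h4
          rw [← Finset.add_sum_erase Finset.univ _ (Finset.mem_univ j)] at h5
          have h8 : 1 ≤ ∑ x ∈ Finset.univ.erase j, (df r (g x) a).natAbs := by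
            simp only [Int.natAbs_zero] at h4
            omega
          have h9 : ∃ x ∈ Finset.univ.erase j, (df r (g x) a).natAbs ≠ 0 := by
            by_contra hcon
            push Not at hcon
            rw [Finset.sum_eq_zero hcon] at h8
            omega
          obtain ⟨x, hx, hx2⟩ := h9
          refine ⟨x, ?_⟩
          rw [h1 x (Finset.ne_of_mem_erase hx)]
          intro hc
          rw [hc] at hx2
          exact hx2 rfl
        · exact ⟨j, h7⟩
      · by_cases hjj : j0 = j
        · subst hjj
          exact ⟨j0, by rw [h2 a hal hai]; exact hj0⟩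
        · exact ⟨j0, by rw [h1 j0 hjj a]; exact hj0⟩
  have h7 := Finset.card_lt_card hss
  have h8 : (cov g' v).card ≤ n := by
    have := Finset.card_le_univ (cov g' v)
    simpa using this
  omega

theorem wsum_lt {g g' : Fin K → ((i : Fin n) → Fin (m i))} {r v : (i : Fin n) → Fin (m i)}
    {i : Fin n} (hne : ∀ a, a ≠ i → v a = r a)
    (hi : (v i : ℕ) = r i + 1 ∨ (r i : ℕ) = v i + 1)
    (h1 : ∀ j a, df v (g' j) a = df r (g j) a) (h2 : ∃ j, df r (g j) i ≠ 0)
    (h3 : ∀ j, (df v (g j) i).natAbs = (df r (g j) i).natAbs + 1) :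
    wsum g' v < wsum g r := by
  unfold wsum
  have hvi := (v i).2
  have hlt : wt g' v i < wt g r i := by
    unfold wt
    simp only [h1]
    rcases hi with hi | hi
    · have h4 : ∃ j, 0 < df r (g j) i := by
        obtain ⟨j, hj⟩ := h2
        refine ⟨j, ?_⟩
        have := h3 j
        unfold df at this hj ⊢
        omega
      rw [if_pos h4, if_pos h4]
      omega
    · have h4 : ¬ ∃ j, 0 < df r (g j) i := by
        rintro ⟨j, hj⟩
        have := h3 j
        unfold df at this hj
        omega
      have h5 : ∃ j, df r (g j) i < 0 := by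
        obtain ⟨j, hj⟩ := h2
        refine ⟨j, ?_⟩
        have := h3 j
        unfold df at this hj ⊢
        omega
      rw [if_neg h4, if_neg h4, if_pos h5, if_pos h5]
      omega
  refine Finset.sum_lt_sum (fun a _ => ?_) ⟨i, Finset.mem_univ i, hlt⟩
  by_cases ha : a = i
  · rw [ha]
    exact le_of_lt hlt
  · unfold wt
    simp only [h1]
    rw [hne a ha]

end strategy

section upper

variable {n : ℕ} {m : Fin n → ℕ} {K : ℕ}

/-- the invariant of the cops -/
def Inv (z : Fin K) (g : Fin K → ((i : Fin n) → Fin (m i))) (h r : (i : Fin n) → Fin (m i))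
    (mo : Bool) : Prop :=
  (mo = false ∧ h = g z ∧ ∀ j, 2 ≤ dst r (g j)) ∨
    (mo = true ∧ (∀ j, dst r (g j) = 2) ∧ (grid m).Adj r h ∧ (grid m).Adj h (g z))

theorem main_upper (hn : n ≤ 2 * K) (z : Fin K) :
    ∀ x : (Fin K → ((i : Fin n) → Fin (m i))) × ((i : Fin n) → Fin (m i)) ×
      ((i : Fin n) → Fin (m i)) × Bool,
      Inv z x.1 x.2.1 x.2.2.1 x.2.2.2 → RW (grid m) x.1 x.2.1 x.2.2.1 := by
  refine lex_induction (fun x => tot x.1 x.2.2.1) (fun x => n - (cov x.1 x.2.2.1).card)
    (fun x => wsum x.1 x.2.2.1) (fun x => if x.2.2.2 then 0 else 1) _ ?_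
  rintro ⟨g, h, r, mo⟩ IH inv v hv -
  simp only at inv hv ⊢
  have IH' : ∀ g' h' r' mo', (tot g' r' < tot g r ∨ (tot g' r' = tot g r ∧
      (n - (cov g' r').card < n - (cov g r).card ∨
        (n - (cov g' r').card = n - (cov g r).card ∧
        (wsum g' r' < wsum g r ∨ (wsum g' r' = wsum g r ∧
        (if mo' = true then 0 else 1) < (if mo = true then 0 else 1))))))) →
      Inv z g' h' r' mo' → RW (grid m) g' h' r' := by
    intro g' h' r' mo' hlt hinv
    exact IH (g', h', r', mo') hlt hinv
  clear IH
  have hd : ∀ j, 2 ≤ dst r (g j) := by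
    rcases inv with ⟨_, _, h2⟩ | ⟨_, h2, _⟩
    · exact h2
    · intro j
      rw [h2 j]
  have hrv : dst r v ≤ 1 := by
    rcases hv with hv | hv
    · rw [hv, dst_self]
      omega
    · rw [dst_adj hv]
  have hgv : ∀ j, g j ≠ v := by
    intro j hj
    have := hd j
    rw [hj] at this
    omega
  -- capture by a guard next to the robber
  have hcapg : ∀ j, dst v (g j) = 1 → CopsForce (grid m) (attack (cfg g h) v) v := by
    intro j hj
    refine force_capture j.castSucc (g j) (attack_cast j (hgv j)) (Or.inr ?_)
    exact adj_of_dst (by rw [dst_comm]; exact hj)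
  rcases hv with hv | hv
  · -- the robber stays put
    subst hv
    rcases inv with ⟨hmo, hh, _⟩ | ⟨hmo, h2, hadj, hadj2⟩
    · have hhv : h ≠ v := by
        rw [hh]
        exact hgv z
      rw [attack_eq hgv hhv]
      by_cases h3 : ∃ j, 3 ≤ dst v (g j)
      · obtain ⟨j, hj⟩ := h3
        obtain ⟨l, hl⟩ := exists_df_ne (x := v) (y := g j) (by omega)
        obtain ⟨gj, hgj1, hgj2, hgj3⟩ := reduce hl
        have hgj4 := dst_reduce hgj2 hgj3
        have hg' : ∀ j', g j' = Function.update g j gj j' ∨
            (grid m).Adj (g j') (Function.update g j gj j') := by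
          intro j'
          by_cases hjj : j' = j
          · subst hjj
            right
            rw [Function.update_self]
            exact hgj1
          · left
            rw [Function.update_of_ne hjj]
        have hd' : ∀ j', 2 ≤ dst v (Function.update g j gj j') := by
          intro j'
          by_cases hjj : j' = j
          · subst hjj
            rw [Function.update_self]
            omega
          · rw [Function.update_of_ne hjj]
            exact hd j'
        have hgv' : ∀ j', Function.update g j gj j' ≠ v := by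
          intro j' hc
          have := hd' j'
          rw [hc, dst_self] at this
          omega
        refine force_of_RW (g' := Function.update g j gj) (h' := Function.update g j gj z)
          hg' ?_ hgv' (hgv' z) ?_
        · rw [hh]
          exact hg' z
        · refine IH' _ _ _ false (Or.inl ?_) (Or.inl ⟨rfl, rfl, hd'⟩)
          unfold tot
          refine Finset.sum_lt_sum (fun j' _ => ?_) ⟨j, Finset.mem_univ j, ?_⟩
          · by_cases hjj : j' = j
            · subst hjj
              rw [Function.update_self]
              omega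
            · rw [Function.update_of_ne hjj]
          · rw [Function.update_self]
            omega
      · push Not at h3
        have h4 : ∀ j, dst v (g j) = 2 := fun j => by
          have := h3 j
          have := hd j
          omega
        obtain ⟨l, hl⟩ := exists_df_ne (x := v) (y := g z) (by rw [h4 z]; omega)
        obtain ⟨h', hh1, hh2, hh3⟩ := reduce hl
        have hh4 := dst_reduce hh2 hh3
        rw [h4 z] at hh4
        have hh5 : dst v h' = 1 := by omega
        refine force_of_RW (g' := g) (h' := h') (fun j => Or.inl rfl) (Or.inr ?_) hgv ?_ ?_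
        · rw [hh]
          exact hh1
        · rintro rfl
          rw [dst_self] at hh5
          omega
        · refine IH' _ _ _ true (Or.inr ⟨rfl, Or.inr ⟨rfl, Or.inr ⟨rfl, ?_⟩⟩⟩)
            (Or.inr ⟨rfl, h4, adj_of_dst hh5, hh1.symm⟩)
          rw [hmo]
          simp
    · have hhv : h ≠ v := by
        rintro rfl
        exact (grid m).irrefl hadj
      rw [attack_eq hgv hhv]
      exact force_capture (Fin.last K) h (cfg_last g h) (Or.inr hadj.symm)
  · -- the robber moves
    obtain ⟨i, hne, hi⟩ := adj_cases hv
    have hdm : ∀ y, dst v y + (df r y i).natAbs = dst r y + (df v y i).natAbs :=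
      fun y => dst_move hne
    by_cases htow : ∃ j, (df v (g j) i).natAbs + 1 = (df r (g j) i).natAbs ∧ dst r (g j) = 2
    · obtain ⟨j, hj1, hj2⟩ := htow
      have := hdm (g j)
      exact hcapg j (by omega)
    · push Not at htow
      by_cases ht2 : ∃ j, (df v (g j) i).natAbs + 1 = (df r (g j) i).natAbs
      · -- the total distance decreases
        have hst : mo = false ∧ h = g z := by
          rcases inv with ⟨h1, h2, _⟩ | ⟨_, h2, _⟩
          · exact ⟨h1, h2⟩
          · obtain ⟨j, hj⟩ := ht2
            exact absurd (h2 j) (htow j hj)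
        have hhv : h ≠ v := by
          rw [hst.2]
          exact hgv z
        rw [attack_eq hgv hhv]
        have hex : ∀ j, ∃ gj : (i : Fin n) → Fin (m i), (g j = gj ∨ (grid m).Adj (g j) gj) ∧
            2 ≤ dst v gj ∧ dst v gj ≤ dst r (g j) ∧
            ((df v (g j) i).natAbs + 1 = (df r (g j) i).natAbs → dst v gj < dst r (g j)) := by
          intro j
          have hj1 := hdm (g j)
          have hj2 := hd j
          rcases dich (g j) hi with haw | hto
          · obtain ⟨gj, hgj1, hgj2⟩ := mirror hne hi haw
            have hgj3 : dst v gj = dst r (g j) := dst_congr hgj2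
            refine ⟨gj, Or.inr hgj1, by omega, by omega, fun hc => ?_⟩
            omega
          · have hj3 := htow j hto
            exact ⟨g j, Or.inl rfl, by omega, by omega, fun _ => by omega⟩
        choose g' hg1 hg2 hg3 hg4 using hex
        have hgv' : ∀ j, g' j ≠ v := by
          intro j hc
          have := hg2 j
          rw [hc, dst_self] at this
          omega
        refine force_of_RW (g' := g') (h' := g' z) hg1 ?_ hgv' (hgv' z) ?_
        · rw [hst.2]
          exact hg1 z
        · refine IH' _ _ _ false (Or.inl ?_) (Or.inl ⟨rfl, rfl, hg2⟩)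
          unfold tot
          obtain ⟨j, hj⟩ := ht2
          exact Finset.sum_lt_sum (fun j' _ => hg3 j') ⟨j, Finset.mem_univ j, hg4 j hj⟩
      · -- the robber moves away from all the guards
        have haw : ∀ j, (df v (g j) i).natAbs = (df r (g j) i).natAbs + 1 := by
          intro j
          rcases dich (g j) hi with haw | hto
          · exact haw
          · exact absurd ⟨j, hto⟩ ht2
        have hhv : h ≠ v := by
          rcases inv with ⟨_, h2, _⟩ | ⟨_, h2, h3, h4⟩
          · rw [h2]
            exact hgv z
          · rintro rfl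
            have h5 := dst_adj h4
            have h6 := hdm (g z)
            have h7 := haw z
            have h8 := h2 z
            omega
        rw [attack_eq hgv hhv]
        -- the mirror move of the hunter in the second mode
        have hmir : mo = true → ∀ gz : (i : Fin n) → Fin (m i),
            (∀ a, df v gz a = df r (g z) a) → ∃ h' : (i : Fin n) → Fin (m i),
            (grid m).Adj h h' ∧ (grid m).Adj v h' ∧ (grid m).Adj h' gz := by
          intro hmo gz hgz
          rcases inv with ⟨h1, _⟩ | ⟨_, h2, h3, h4⟩
          · rw [h1] at hmo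
            exact absurd hmo (by simp)
          · have h5 := dst_adj h3
            have h6 := dst_adj h4
            have h7 := between (x := r) (y := h) (w := g z) (by rw [h2 z, h5, h6]) i
            have h8 : (df v h i).natAbs = (df r h i).natAbs + 1 := by
              have := haw z
              unfold df at this h7 ⊢
              omega
            obtain ⟨h', hh1, hh2⟩ := mirror hne hi h8
            refine ⟨h', hh1, adj_of_dst ?_, adj_of_dst ?_⟩
            · rw [dst_congr hh2]
              exact h5
            · have : dst h' gz = dst h (g z) := by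
                apply dst_congr
                intro a
                rw [df_sub h' gz v a, df_sub h (g z) r a, hgz a, hh2 a]
              rw [this]
              exact h6
        by_cases hcov : ∃ j, df r (g j) i ≠ 0
        · -- covered coordinate: all mirror
          have hex : ∀ j, ∃ gj : (i : Fin n) → Fin (m i), (grid m).Adj (g j) gj ∧
              ∀ a, df v gj a = df r (g j) a := fun j => mirror hne hi (haw j)
          choose g' hg1 hg2 using hex
          have hdd : ∀ j, dst v (g' j) = dst r (g j) := fun j => dst_congr (hg2 j)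
          have hgv' : ∀ j, g' j ≠ v := by
            intro j hc
            have := hdd j
            have := hd j
            rw [hc, dst_self] at *
            omega
          have hT : tot g' v = tot g r := by
            unfold tot
            exact Finset.sum_congr rfl (fun j _ => hdd j)
          have hC : cov g' v = cov g r := by
            unfold cov
            simp only [hg2]
          have hW : wsum g' v < wsum g r := wsum_lt hne hi hg2 hcov haw
          rcases inv with ⟨hmo, hh, _⟩ | ⟨hmo, h2, h3, h4⟩
          · refine force_of_RW (g' := g') (h' := g' z) (fun j => Or.inr (hg1 j)) ?_ hgv'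
              (hgv' z) ?_
            · rw [hh]
              exact Or.inr (hg1 z)
            · refine IH' _ _ _ false (Or.inr ⟨hT, Or.inr ⟨by rw [hC], Or.inl hW⟩⟩)
                (Or.inl ⟨rfl, rfl, fun j => ?_⟩)
              rw [hdd j]
              exact hd j
          · obtain ⟨h', hh1, hh2, hh3⟩ := hmir hmo (g' z) (hg2 z)
            refine force_of_RW (g' := g') (h' := h') (fun j => Or.inr (hg1 j)) (Or.inr hh1)
              hgv' ?_ ?_
            · rintro rfl
              exact (grid m).irrefl hh2
            · refine IH' _ _ _ true (Or.inr ⟨hT, Or.inr ⟨by rw [hC], Or.inl hW⟩⟩)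
                (Or.inr ⟨rfl, fun j => ?_, hh2, hh3⟩)
              rw [hdd j]
              exact h2 j
        · -- uncovered coordinate: one guard takes it over
          push Not at hcov
          obtain ⟨l, j, hlj, hl2⟩ := pigeon hn hd hcov
          have hli : l ≠ i := by
            rintro rfl
            exact hlj (hcov j)
          have hdl : ∀ y, df v y l = df r y l := by
            intro y
            unfold df
            rw [hne l hli]
          obtain ⟨gj, hgj1, hgj2, hgj3⟩ := reduce (v := v) (g := g j) (l := l)
            (by rw [hdl]; exact hlj)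
          have hgj4 := dst_reduce hgj2 hgj3
          have hgj5 : dst v gj = dst r (g j) := by
            have h1 := hdm (g j)
            have h2 := haw j
            omega
          have hex : ∀ j', ∃ gj' : (i : Fin n) → Fin (m i), (grid m).Adj (g j') gj' ∧
              dst v gj' = dst r (g j') ∧ (j' ≠ j → ∀ a, df v gj' a = df r (g j') a) ∧
              (j' = j → gj' = gj) := by
            intro j'
            by_cases hjj : j' = j
            · subst hjj
              exact ⟨gj, hgj1, hgj5, fun hc => absurd rfl hc, fun _ => rfl⟩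
            · obtain ⟨gj', h1, h2⟩ := mirror hne hi (haw j')
              exact ⟨gj', h1, dst_congr h2, fun _ => h2, fun hc => absurd hc hjj⟩
          choose g' hg1 hdd hg2 hg3 using hex
          have hgjj : g' j = gj := hg3 j rfl
          have hgv' : ∀ j, g' j ≠ v := by
            intro j hc
            have := hdd j
            have := hd j
            rw [hc, dst_self] at *
            omega
          have hT : tot g' v = tot g r := by
            unfold tot
            exact Finset.sum_congr rfl (fun j _ => hdd j)
          have hC : n - (cov g' v).card < n - (cov g r).card := by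
            refine cov_lt (j := j) (i := i) (l := l) hg2 ?_ ?_ ?_ hl2 hcov
            · intro a hal hai
              rw [hgjj]
              unfold df
              rw [hgj2 a hal, hne a hai]
            · rw [hgjj]
              have h1 := hcov j
              have h2 := haw j
              unfold df at h1 h2 ⊢
              rw [hgj2 i hli.symm]
              omega
            · rw [hgjj, hgj3, hdl]
          rcases inv with ⟨hmo, hh, _⟩ | ⟨hmo, h2, h3, h4⟩
          · refine force_of_RW (g' := g') (h' := g' z) (fun j => Or.inr (hg1 j)) ?_ hgv'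
              (hgv' z) ?_
            · rw [hh]
              exact Or.inr (hg1 z)
            · refine IH' _ _ _ false (Or.inr ⟨hT, Or.inl hC⟩)
                (Or.inl ⟨rfl, rfl, fun j => ?_⟩)
              rw [hdd j]
              exact hd j
          · have hd2 : ∀ j, dst v (g' j) = 2 := fun j => by
              rw [hdd j]
              exact h2 j
            by_cases hjz : z = j
            · -- the hunter moves to the old vertex of the robber
              refine force_of_RW (g' := g') (h' := r) (fun j => Or.inr (hg1 j))
                (Or.inr h3.symm) hgv' ?_ ?_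
              · rintro rfl
                exact (grid m).irrefl hv
              · refine IH' _ _ _ true (Or.inr ⟨hT, Or.inl hC⟩)
                  (Or.inr ⟨rfl, hd2, hv.symm, adj_of_dst ?_⟩)
                have h5 := hdm (g' z)
                have h6 : df r (g' z) i = 0 := by
                  rw [hjz, hgjj]
                  have h1 := hcov j
                  unfold df at h1 ⊢
                  rw [hgj2 i hli.symm]
                  exact h1
                have h7 : (df v (g' z) i).natAbs = 1 := by
                  unfold df at h6 ⊢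
                  omega
                have h8 := hd2 z
                rw [h6, h7, h8] at h5
                simp only [Int.natAbs_zero] at h5
                omega
            · obtain ⟨h', hh1, hh2, hh3⟩ := hmir hmo (g' z) (hg2 z hjz)
              refine force_of_RW (g' := g') (h' := h') (fun j => Or.inr (hg1 j)) (Or.inr hh1)
                hgv' ?_ ?_
              · rintro rfl
                exact (grid m).irrefl hh2
              · exact IH' _ _ _ true (Or.inr ⟨hT, Or.inl hC⟩)
                  (Or.inr ⟨rfl, hd2, hh2, hh3⟩)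

theorem cops_win (hn1 : 1 ≤ n) (hm : ∀ i, 1 ≤ m i) : CopsWin (grid m) ((n + 1) / 2 + 1) := by
  have hK : 0 < (n + 1) / 2 := by omega
  refine ⟨fun _ => fun i => ⟨0, hm i⟩, fun r => ?_⟩
  generalize hv0 : (fun i => (⟨0, hm i⟩ : Fin (m i))) = v0
  by_cases h0 : dst r v0 = 0
  · left
    exact ⟨Fin.last _, (eq_of_dst h0).symm⟩
  · right
    by_cases h1 : dst r v0 = 1
    · exact force_capture (Fin.last _) v0 rfl (Or.inr (adj_of_dst h1).symm)
    · have hcfg : (fun _ : Fin ((n + 1) / 2 + 1) => some v0) =
          cfg (fun _ : Fin ((n + 1) / 2) => v0) v0 := by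
        funext j
        induction j using Fin.lastCases with
        | last => rw [cfg_last]
        | cast j => rw [cfg_cast]
      have hne : v0 ≠ r := by
        rintro rfl
        exact h0 (dst_self _)
      rw [hcfg]
      refine force_of_RW (fun _ => Or.inl rfl) (Or.inl rfl) (fun _ => hne) hne ?_
      refine main_upper (by omega) ⟨0, hK⟩ (fun _ => v0, v0, r, false) (Or.inl ⟨rfl, rfl, ?_⟩)
      intro _
      change 2 ≤ dst r v0
      omega

end upper

section lower

variable {n : ℕ} {m : Fin n → ℕ} {k : ℕ}

theorem exists_nbr (hm : ∀ i, 2 ≤ m i) (r : (i : Fin n) → Fin (m i)) (i : Fin n) :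
    ∃ w : (i : Fin n) → Fin (m i), (∀ a, a ≠ i → w a = r a) ∧
      ((w i : ℕ) = r i + 1 ∨ (r i : ℕ) = w i + 1) := by
  have h1 := hm i
  have h2 := (r i).2
  by_cases h0 : (r i : ℕ) = 0
  · refine ⟨Function.update r i ⟨1, by omega⟩, fun a ha => Function.update_of_ne ha _ _,
      Or.inl ?_⟩
    rw [Function.update_self, h0]
  · refine ⟨Function.update r i ⟨(r i : ℕ) - 1, by omega⟩,
      fun a ha => Function.update_of_ne ha _ _, Or.inr ?_⟩
    rw [Function.update_self]
    simp only
    omega

theorem adj_of_nbr {r w : (i : Fin n) → Fin (m i)} {i : Fin n} (h1 : ∀ a, a ≠ i → w a = r a)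
    (h2 : (w i : ℕ) = r i + 1 ∨ (r i : ℕ) = w i + 1) : (grid m).Adj r w := by
  refine ⟨i, ?_, fun j hj => (h1 j hj).symm⟩
  rcases h2 with h2 | h2
  · left; omega
  · right; omega

theorem exists_good (hm : ∀ i, 2 ≤ m i) (hk : 2 * k ≤ n + 1)
    (c : Fin k → Option ((i : Fin n) → Fin (m i))) (r : (i : Fin n) → Fin (m i))
    (hr : ∀ j, c j ≠ some r) :
    ∃ v, (v = r ∨ (grid m).Adj r v) ∧ copsAt c v ≤ 1 ∧
      ∀ j x, c j = some x → x ≠ v → 2 ≤ dst v x := by
  classical
  have hpos : ∀ j x, c j = some x → 1 ≤ dst r x := by
    intro j x hj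
    by_contra hcon
    have : dst r x = 0 := by omega
    rw [← eq_of_dst this] at hj
    exact hr j hj
  by_cases hnear : ∃ j0 x0, c j0 = some x0 ∧ dst r x0 = 1
  · obtain ⟨j0, x0, hj0, hx0⟩ := hnear
    have hw := fun i => exists_nbr hm r i
    choose w hw1 hw2 using hw
    by_contra hcon
    push Not at hcon
    have hdm : ∀ i x, dst (w i) x + (df r x i).natAbs = dst r x + (df (w i) x i).natAbs :=
      fun i x => dst_move (hw1 i)
    let F : Fin k → Fin n → ℕ := fun j i =>
      if c j = some (w i) then 1 else if (∃ x, c j = some x ∧ dst (w i) x ≤ 1) then 2 else 0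
    have hA : ∀ i, 2 ≤ ∑ j, F j i := by
      intro i
      by_cases h1 : copsAt c (w i) ≤ 1
      · obtain ⟨j, x, h2, h3, h4⟩ := hcon (w i) (Or.inr (adj_of_nbr (hw1 i) (hw2 i))) h1
        have h5 : F j i = 2 := by
          simp only [F]
          rw [if_neg, if_pos ⟨x, h2, by omega⟩]
          rw [h2]
          intro h
          exact h3 (Option.some_injective _ h)
        calc 2 = F j i := h5.symm
          _ ≤ ∑ j, F j i := Finset.single_le_sum (f := fun j => F j i)
            (fun _ _ => Nat.zero_le _) (Finset.mem_univ j)
      · have h2 : copsAt c (w i) = ∑ j, if c j = some (w i) then 1 else 0 := by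
          unfold copsAt
          rw [Nat.card_eq_fintype_card, Fintype.card_subtype, Finset.card_filter]
        have h3 : ∑ j, (if c j = some (w i) then 1 else 0) ≤ ∑ j, F j i := by
          apply Finset.sum_le_sum
          intro j _
          simp only [F]
          split_ifs <;> omega
        omega
    have hB : ∀ j x, c j = some x → ∀ i, F j i ≤
        (if dst r x = 1 then 1 else if dst r x = 2 then 2 else 0) * (df r x i).natAbs := by
      intro j x hj i
      have h1 := hpos j x hj
      have h2 := hdm i x
      have h3 := dich x (hw2 i)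
      simp only [F]
      by_cases h4 : c j = some (w i)
      · rw [if_pos h4]
        have h5 : x = w i := by
          rw [hj] at h4
          exact Option.some_injective _ h4
        have h6 : dst r x = 1 := by
          rw [h5]
          exact dst_adj (adj_of_nbr (hw1 i) (hw2 i))
        have h7 : dst (w i) x = 0 := by
          rw [h5, dst_self]
        rw [if_pos h6]
        omega
      · rw [if_neg h4]
        by_cases h5 : ∃ y, c j = some y ∧ dst (w i) y ≤ 1
        · rw [if_pos h5]
          obtain ⟨y, hy1, hy2⟩ := h5
          have h6 : y = x := by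
            rw [hj] at hy1
            exact (Option.some_injective _ hy1).symm
          rw [h6] at hy2
          have h7 : dst (w i) x ≠ 0 := by
            intro h
            apply h4
            rw [hj, eq_of_dst h]
          have h8 : dst r x = 2 := by omega
          rw [if_neg (by omega), if_pos h8]
          omega
        · rw [if_neg h5]
          exact Nat.zero_le _
    have hC : ∀ j, ∑ i, F j i ≤ 4 := by
      intro j
      rcases hcj : c j with _ | x
      · have : ∀ i, F j i = 0 := by
          intro i
          simp only [F]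
          rw [if_neg (by rw [hcj]; exact fun h => by cases h), if_neg]
          rintro ⟨x, hx, _⟩
          rw [hcj] at hx
          cases hx
        rw [Finset.sum_eq_zero (fun i _ => this i)]
        omega
      · calc ∑ i, F j i ≤ ∑ i, (if dst r x = 1 then 1 else if dst r x = 2 then 2 else 0) *
              (df r x i).natAbs := Finset.sum_le_sum (fun i _ => hB j x hcj i)
          _ = (if dst r x = 1 then 1 else if dst r x = 2 then 2 else 0) * dst r x := by
            unfold dst
            rw [Finset.mul_sum]
          _ ≤ 4 := by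
            split_ifs <;> omega
    have hD : ∑ i, F j0 i ≤ 1 := by
      calc ∑ i, F j0 i ≤ ∑ i, (if dst r x0 = 1 then 1 else if dst r x0 = 2 then 2 else 0) *
              (df r x0 i).natAbs := Finset.sum_le_sum (fun i _ => hB j0 x0 hj0 i)
          _ = (if dst r x0 = 1 then 1 else if dst r x0 = 2 then 2 else 0) * dst r x0 := by
            unfold dst
            rw [Finset.mul_sum]
          _ ≤ 1 := by
            rw [if_pos hx0, hx0]
    have hE : 2 * n ≤ ∑ i, ∑ j, F j i := by
      have : ∑ _i : Fin n, 2 ≤ ∑ i, ∑ j, F j i := Finset.sum_le_sum (fun i _ => hA i)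
      simp at this
      omega
    rw [Finset.sum_comm, ← Finset.add_sum_erase Finset.univ _ (Finset.mem_univ j0)] at hE
    have hG : ∑ j ∈ Finset.univ.erase j0, ∑ i, F j i ≤ 4 * (k - 1) := by
      calc ∑ j ∈ Finset.univ.erase j0, ∑ i, F j i ≤ ∑ j ∈ Finset.univ.erase j0, 4 :=
            Finset.sum_le_sum (fun j _ => hC j)
        _ = 4 * (k - 1) := by
          rw [Finset.sum_const, Finset.card_erase_of_mem (Finset.mem_univ j0)]
          simp
          ring
    have hk1 : 1 ≤ k := by
      have := j0.2
      omega
    omega
  · push Not at hnear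
    refine ⟨r, Or.inl rfl, ?_, ?_⟩
    · unfold copsAt
      have : IsEmpty {j : Fin k // c j = some r} := ⟨fun x => hr x.1 x.2⟩
      rw [Nat.card_of_isEmpty]
      omega
    · intro j x hj _
      have h1 := hpos j x hj
      have h2 := hnear j x hj
      omega

theorem not_force (hm : ∀ i, 2 ≤ m i) (hk : 2 * k ≤ n + 1)
    {c : Fin k → Option ((i : Fin n) → Fin (m i))} {r : (i : Fin n) → Fin (m i)}
    (h : CopsForce (grid m) c r) : ¬ (∀ j x, c j = some x → 2 ≤ dst r x) := by
  induction h with
  | capture c c' r j hmv hj =>
    intro hsafe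
    rcases hmv j with ⟨_, h2⟩ | ⟨x, y, h1, h2, h3⟩
    · rw [hj] at h2
      cases h2
    · have h4 : y = r := by
        rw [hj] at h2
        exact (Option.some_injective _ h2).symm
      have h5 := hsafe j x h1
      rcases h3 with h3 | h3
      · rw [h3, h4, dst_self] at h5
        omega
      · rw [h4] at h3
        have := dst_adj h3.symm
        omega
  | step c c' r hmv hr _ ih =>
    intro _
    obtain ⟨v, hv1, hv2, hv3⟩ := exists_good hm hk c' r hr
    refine ih v hv1 hv2 ?_
    intro j x hx
    unfold attack at hx
    by_cases h1 : c' j = some v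
    · rw [if_pos h1] at hx
      cases hx
    · rw [if_neg h1] at hx
      refine hv3 j x hx ?_
      rintro rfl
      exact h1 hx

theorem not_win (hm : ∀ i, 2 ≤ m i) (hk : 2 * k ≤ n + 1)
    (hfar : ∀ c : Fin k → ((i : Fin n) → Fin (m i)), ∃ r, ∀ j, 2 ≤ dst r (c j)) :
    ¬ CopsWin (grid m) k := by
  rintro ⟨c, hc⟩
  obtain ⟨r, hr⟩ := hfar c
  rcases hc r with ⟨j, hj⟩ | h
  · have := hr j
    rw [hj, dst_self] at this
    omega
  · refine not_force hm hk h ?_
    intro j x hx
    have : c j = x := Option.some_injective _ hx
    rw [← this]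
    exact hr j

theorem exists_far (c : Fin k → ((i : Fin n) → Fin (m i)))
    (hcount : k * (1 + ∑ i, (m i - 1)) < ∏ i, m i) : ∃ r, ∀ j, 2 ≤ dst r (c j) := by
  classical
  by_contra hcon
  push Not at hcon
  let B : Fin k → Finset ((i : Fin n) → Fin (m i)) := fun j =>
    insert (c j) (Finset.univ.biUnion (fun i =>
      (Finset.univ.erase (c j i)).image (fun a => Function.update (c j) i a)))
  have hB : ∀ j, (B j).card ≤ 1 + ∑ i, (m i - 1) := by
    intro j
    have h1 : (Finset.univ.biUnion (fun i =>
        (Finset.univ.erase (c j i)).image (fun a => Function.update (c j) i a))).card ≤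
        ∑ i, (m i - 1) := by
      refine Finset.card_biUnion_le.trans ?_
      apply Finset.sum_le_sum
      intro i _
      refine Finset.card_image_le.trans ?_
      rw [Finset.card_erase_of_mem (Finset.mem_univ _)]
      simp
    calc (B j).card ≤ (Finset.univ.biUnion (fun i =>
        (Finset.univ.erase (c j i)).image (fun a => Function.update (c j) i a))).card + 1 :=
          Finset.card_insert_le _ _
      _ ≤ 1 + ∑ i, (m i - 1) := by omega
  have hcover : (Finset.univ : Finset ((i : Fin n) → Fin (m i))) ⊆ Finset.univ.biUnion B := by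
    intro r _
    obtain ⟨j, hj⟩ := hcon r
    rw [Finset.mem_biUnion]
    refine ⟨j, Finset.mem_univ j, ?_⟩
    change r ∈ insert (c j) _
    rw [Finset.mem_insert]
    by_cases h0 : dst r (c j) = 0
    · left
      exact eq_of_dst h0
    · right
      have h1 : dst r (c j) = 1 := by omega
      obtain ⟨i, hne, hi⟩ := adj_cases (adj_of_dst h1)
      rw [Finset.mem_biUnion]
      refine ⟨i, Finset.mem_univ i, ?_⟩
      rw [Finset.mem_image]
      refine ⟨r i, ?_, ?_⟩
      · rw [Finset.mem_erase]
        refine ⟨?_, Finset.mem_univ _⟩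
        intro h
        rw [h] at hi
        omega
      · funext a
        by_cases ha : a = i
        · subst ha
          rw [Function.update_self]
        · rw [Function.update_of_ne ha, hne a ha]
  have h3 := Finset.card_le_card hcover
  have h4 : (Finset.univ.biUnion B).card ≤ k * (1 + ∑ i, (m i - 1)) := by
    refine Finset.card_biUnion_le.trans ?_
    refine (Finset.sum_le_sum (fun j _ => hB j)).trans ?_
    simp
  have h5 : (Finset.univ : Finset ((i : Fin n) → Fin (m i))).card = ∏ i, m i := by
    rw [Finset.card_univ, Fintype.card_pi]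
    simp
  omega

end lower

theorem weak_step {n : ℕ} (hn : 3 ≤ n)
    (hw : ∀ x : Fin n → ℕ, (∀ i, 1 ≤ x i) → (n + 1) * (1 + ∑ i, x i) ≤ 2 * ∏ i, (x i + 1)) :
    ∀ x : Fin (n + 1) → ℕ, (∀ i, 1 ≤ x i) →
      (n + 2) * (1 + ∑ i, x i) < 2 * ∏ i, (x i + 1) := by
  intro x hx
  rw [Fin.sum_univ_castSucc, Fin.prod_univ_castSucc]
  have h1 := hw (fun i => x i.castSucc) (fun i => hx i.castSucc)
  have h2 : n ≤ ∑ i : Fin n, x i.castSucc := by
    have : ∑ _i : Fin n, 1 ≤ ∑ i : Fin n, x i.castSucc :=
      Finset.sum_le_sum (fun i _ => hx i.castSucc)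
    simpa using this
  have h3 := hx (Fin.last n)
  generalize (∑ i : Fin n, x i.castSucc) = E at h1 h2 ⊢
  generalize (∏ i : Fin n, (x i.castSucc + 1)) = P at h1 ⊢
  generalize x (Fin.last n) = y at h3 ⊢
  obtain ⟨y', rfl⟩ := Nat.exists_eq_add_of_le h3
  obtain ⟨E', rfl⟩ := Nat.exists_eq_add_of_le h2
  obtain ⟨n', rfl⟩ := Nat.exists_eq_add_of_le hn
  have h4 : (3 + n' + 1) * (1 + (3 + n' + E')) * (1 + y' + 1) ≤ 2 * (P * (1 + y' + 1)) := by
    calc (3 + n' + 1) * (1 + (3 + n' + E')) * (1 + y' + 1) ≤ 2 * P * (1 + y' + 1) :=
          Nat.mul_le_mul_right _ h1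
      _ = 2 * (P * (1 + y' + 1)) := by ring
  refine lt_of_lt_of_le ?_ h4
  nlinarith [Nat.zero_le (n' * y'), Nat.zero_le (E' * y'), Nat.zero_le (n' * E'),
    Nat.zero_le (n' * E' * y'), Nat.zero_le (n' * n'), Nat.zero_le (n' * n' * y')]

theorem weak3 (x : Fin 3 → ℕ) (hx : ∀ i, 1 ≤ x i) :
    (3 + 1) * (1 + ∑ i, x i) ≤ 2 * ∏ i, (x i + 1) := by
  rw [Fin.sum_univ_three, Fin.prod_univ_three]
  obtain ⟨a, ha⟩ := Nat.exists_eq_add_of_le (hx 0)
  obtain ⟨b, hb⟩ := Nat.exists_eq_add_of_le (hx 1)
  obtain ⟨c, hc⟩ := Nat.exists_eq_add_of_le (hx 2)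
  rw [ha, hb, hc]
  nlinarith [Nat.zero_le (a * b), Nat.zero_le (a * c), Nat.zero_le (b * c),
    Nat.zero_le (a * b * c)]

theorem weak_all : ∀ n, 3 ≤ n → ∀ x : Fin n → ℕ, (∀ i, 1 ≤ x i) →
    (n + 1) * (1 + ∑ i, x i) ≤ 2 * ∏ i, (x i + 1) := by
  intro n hn
  induction n, hn using Nat.le_induction with
  | base => exact weak3
  | succ n hn ih =>
    intro x hx
    exact le_of_lt (weak_step hn ih x hx)

theorem strict_all (n : ℕ) (hn : 4 ≤ n) (x : Fin n → ℕ) (hx : ∀ i, 1 ≤ x i) :
    (n + 1) * (1 + ∑ i, x i) < 2 * ∏ i, (x i + 1) := by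
  obtain ⟨l, rfl⟩ : ∃ l, n = l + 1 := ⟨n - 1, by omega⟩
  exact weak_step (by omega) (weak_all l (by omega)) x hx

theorem count_ok {n : ℕ} (m : Fin n → ℕ) (hm : ∀ i, 2 ≤ m i) (hn : 2 ≤ n)
    (hQ : ¬ (n = 3 ∧ ∀ i, m i = 2)) {k : ℕ} (hk : 2 * k ≤ n + 1) :
    k * (1 + ∑ i, (m i - 1)) < ∏ i, m i := by
  obtain ⟨x, hx⟩ : ∃ x : Fin n → ℕ, ∀ i, m i = x i + 1 :=
    ⟨fun i => m i - 1, fun i => by
      have := hm i
      change m i = m i - 1 + 1
      omega⟩
  have hx1 : ∀ i, 1 ≤ x i := fun i => by
    have := hm i
    rw [hx i] at this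
    omega
  have hs : ∑ i, (m i - 1) = ∑ i, x i := Finset.sum_congr rfl (fun i _ => by rw [hx i]; omega)
  have hp : ∏ i, m i = ∏ i, (x i + 1) := Finset.prod_congr rfl (fun i _ => hx i)
  rw [hs, hp]
  by_cases h4 : 4 ≤ n
  · have h1 := strict_all n h4 x hx1
    have h2 : 2 * k * (1 + ∑ i, x i) ≤ (n + 1) * (1 + ∑ i, x i) := Nat.mul_le_mul_right _ hk
    have h3 : 2 * (k * (1 + ∑ i, x i)) = 2 * k * (1 + ∑ i, x i) := by ring
    omega
  · by_cases h3 : n = 3
    · subst h3
      have hk2 : k ≤ 2 := by omega
      refine lt_of_le_of_lt (Nat.mul_le_mul_right _ hk2) ?_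
      rw [Fin.sum_univ_three, Fin.prod_univ_three]
      obtain ⟨a, ha⟩ := Nat.exists_eq_add_of_le (hx1 0)
      obtain ⟨b, hb⟩ := Nat.exists_eq_add_of_le (hx1 1)
      obtain ⟨c, hc⟩ := Nat.exists_eq_add_of_le (hx1 2)
      have habc : 1 ≤ a + b + c := by
        by_contra hcon
        apply hQ
        refine ⟨rfl, fun i => ?_⟩
        rw [hx i]
        fin_cases i
        · change x 0 + 1 = 2
          omega
        · change x 1 + 1 = 2
          omega
        · change x 2 + 1 = 2
          omega
      rw [ha, hb, hc]
      nlinarith [Nat.zero_le (a * b), Nat.zero_le (a * c), Nat.zero_le (b * c),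
        Nat.zero_le (a * b * c)]
    · have h2 : n = 2 := by omega
      subst h2
      have hk1 : k ≤ 1 := by omega
      refine lt_of_le_of_lt (Nat.mul_le_mul_right _ hk1) ?_
      rw [Fin.sum_univ_two, Fin.prod_univ_two]
      have ha := hx1 0
      have hb := hx1 1
      nlinarith [Nat.mul_le_mul ha hb]

theorem win_of_near {n : ℕ} {m : Fin n → ℕ} {k : ℕ} (c : Fin k → ((i : Fin n) → Fin (m i)))
    (h : ∀ r, ∃ j, dst r (c j) ≤ 1) : CopsWin (grid m) k := by
  refine ⟨c, fun r => ?_⟩
  obtain ⟨j, hj⟩ := h r
  by_cases h0 : dst r (c j) = 0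
  · left
    exact ⟨j, (eq_of_dst h0).symm⟩
  · right
    exact force_capture j (c j) rfl (Or.inr (adj_of_dst (by omega)).symm)

/-- **The number of cops needed against an attacking robber on a grid.** Let `n ≥ 1` and let `G`
be the `n`-dimensional grid with side lengths `m i ≥ 2`. The least number of cops that win the
game of cops and attacking robber on `G` is `⌈n / 2⌉ + 1`, except that it is `1` for the paths
with two or three vertices and `2` for the three-dimensional cube with eight vertices. -/
theorem result : ∀ (n : ℕ) (m : Fin n → ℕ), 1 ≤ n → (∀ i, 2 ≤ m i) →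
    IsLeast {k : ℕ | CopsWin (grid m) k}
      (if n = 1 ∧ ∀ i, m i ≤ 3 then 1 else if n = 3 ∧ ∀ i, m i = 2 then 2
        else (n + 1) / 2 + 1) := by
  intro n m hn hm
  split_ifs with h1 h3
  · obtain ⟨rfl, h1⟩ := h1
    constructor
    · refine win_of_near (fun _ => fun i => ⟨1, by have := hm i; omega⟩) (fun r => ⟨0, ?_⟩)
      unfold dst df
      have := h1 0
      have h2 := (r 0).2
      simp only [Finset.univ_unique, Finset.sum_singleton]
      change (((r 0 : ℕ) : ℤ) - ((1 : ℕ) : ℤ)).natAbs ≤ 1
      omega
    · intro k hk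
      by_contra hcon
      have hk0 : k = 0 := by omega
      subst hk0
      exact not_win hm (by omega) (fun c => ⟨fun i => ⟨0, by have := hm i; omega⟩,
        fun j => j.elim0⟩) hk
  · obtain ⟨rfl, h3⟩ := h3
    constructor
    · refine win_of_near (fun j => fun i => ⟨(j : ℕ), by rw [h3 i]; exact j.2⟩) (fun r => ?_)
      by_contra hcon
      push Not at hcon
      have ha := hcon 0
      have hb := hcon 1
      unfold dst df at ha hb
      rw [Fin.sum_univ_three] at ha hb
      have h0 := (r 0).2
      have h1 := (r 1).2
      have h2 := (r 2).2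
      have e0 := h3 0
      have e1 := h3 1
      have e2 := h3 2
      simp only [Fin.val_zero, Fin.val_one] at ha hb
      omega
    · intro k hk
      by_contra hcon
      have hk1 : k ≤ 1 := by omega
      refine not_win hm (by omega) (fun c => exists_far c ?_) hk
      have hs : ∑ i, (m i - 1) = 3 := by
        rw [Fin.sum_univ_three, h3, h3, h3]
      have hp : ∏ i, m i = 8 := by
        rw [Fin.prod_univ_three, h3, h3, h3]
        norm_num
      rw [hs, hp]
      omega
  · constructor
    · exact cops_win hn (fun i => by have := hm i; omega)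
    · intro k hk
      by_contra hcon
      have hk2 : 2 * k ≤ n + 1 := by omega
      by_cases hn1 : n = 1
      · subst hn1
        have h4 : 4 ≤ m 0 := by
          by_contra hc
          apply h1
          refine ⟨rfl, fun i => ?_⟩
          rw [Subsingleton.elim i 0]
          omega
        refine not_win hm hk2 (fun c => ?_) hk
        by_cases hk0 : k = 0
        · subst hk0
          exact ⟨fun i => ⟨0, by have := hm i; omega⟩, fun j => j.elim0⟩
        · have hk1 : k = 1 := by omega
          subst hk1
          by_cases hc : 2 ≤ (c 0 0 : ℕ)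
          · refine ⟨fun i => ⟨0, by have := hm i; omega⟩, fun j => ?_⟩
            rw [Subsingleton.elim j 0]
            unfold dst df
            simp only [Finset.univ_unique, Finset.sum_singleton]
            change 2 ≤ (((0 : ℕ) : ℤ) - ((c 0 0 : ℕ) : ℤ)).natAbs
            omega
          · refine ⟨fun i => ⟨3, by rw [Subsingleton.elim i 0]; omega⟩, fun j => ?_⟩
            rw [Subsingleton.elim j 0]
            unfold dst df
            simp only [Finset.univ_unique, Finset.sum_singleton]
            change 2 ≤ (((3 : ℕ) : ℤ) - ((c 0 0 : ℕ) : ℤ)).natAbs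
            omega
      · exact not_win hm hk2 (fun c => exists_far c (count_ok m hm (by omega) h3 hk2)) hk

end Pool.Agent.Results.MP_cd85a3_co.GridNumber
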